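import Pool.Agent.Y481.X.Defs
import Pool.Agent.Y419.VC.CHV

set_option autoImplicit false

/-!
# The critical value of a chain with both ends at `w`, with constants which depend only on bounds of
the potential (task CHVG of project X)

Adapted from helper419's `Pool/Agent/Y419/VC/CHV.lean`.
-/

namespace Pool.Agent.Y108.X

open Finset Filter Topology Metric Asymptotics
open Pool.Agent.W711.HT Pool.Agent.Y481 Pool.Agent.Y419.CHV
open scoped Real

theorem chvg : Pool.Agent.Y481.X.S_CHVG := by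
  intro ρ τ c C hρ0 hρ hτ hτρ hc hCp
  set K1 := 4 * C / τ with hK1
  set K2 := 16 * C / τ ^ 2 with hK2
  have hK1p : 0 < K1 := by positivity
  have hK2p : 0 < K2 := by positivity
  set M := max (2 * π * (1 + 2 * K1) / τ) (16 * π * K2) with hM
  have hMp : 0 < M := lt_of_lt_of_le (by positivity) (le_max_right _ _)
  refine ⟨τ, M, hτ, le_rfl, hMp, ?_⟩
  intro s hPP
  have hs := hPP.san
  have hC := hPP.sbd
  have hsym := hPP.sym
  intro m a hm ha
  have ha0 : ∀ j < m, (a j : ℂ) ≠ 0 := by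
    intro j hj h0
    have h1 := ha j hj
    have h2 : (a j : ℝ) = 0 := by exact_mod_cast h0
    rw [h2, abs_zero] at h1
    linarith
  have hna : ∀ j < m, ‖-(2 * (π : ℂ) / (a j : ℂ))‖ ≤ 2 * π / M := by
    intro j hj
    rw [norm_neg, norm_div, norm_mul, Complex.norm_real, Real.norm_of_nonneg Real.pi_pos.le,
      Complex.norm_ofNat, Complex.norm_intCast]
    exact div_le_div_of_nonneg_left (by positivity) hMp (ha j hj)
  -- the region
  have hreg : ∀ (w : ℂ), w ∈ Rc (2 * ρ) (2 * τ) → ∀ z : Fin m → ℂ, ‖z‖ ≤ τ →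
      ∀ j, ends m w w (ext0 z) j ∈ Rc (2 * ρ) (2 * τ) := by
    intro w hw z hz j
    unfold ends
    split_ifs with h1 h2
    · exact hw
    · rw [ext0_of z (show j - 1 < m by omega)]
      have h3 := (norm_le_pi_norm z ⟨j - 1, by omega⟩).trans hz
      have h4 := (Complex.abs_re_le_norm (z ⟨j - 1, by omega⟩)).trans h3
      have h5 := (Complex.abs_im_le_norm (z ⟨j - 1, by omega⟩)).trans h3
      exact ⟨by linarith, by linarith⟩
    · exact hw
  have hzreg : ∀ z : Fin m → ℂ, ‖z‖ ≤ τ → ∀ j, z j ∈ Rc (2 * ρ) (2 * τ) := by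
    intro z hz j
    have h3 := (norm_le_pi_norm z j).trans hz
    have h4 := (Complex.abs_re_le_norm (z j)).trans h3
    have h5 := (Complex.abs_im_le_norm (z j)).trans h3
    exact ⟨by linarith, by linarith⟩
  have hmaps : ∀ w ∈ Rc (2 * ρ) (2 * τ), ∀ z : Fin m → ℂ, ‖z‖ ≤ τ → ‖Pm s a w z‖ ≤ τ := by
    intro w hw z hz
    rw [pi_norm_le_iff_of_nonneg hτ.le]
    intro j
    unfold Pm
    rw [norm_mul]
    have h1 := gd_bd hτ hτρ hs hC (hzreg z hz j) (hreg w hw z hz j)
    have h2 := gd_bd hτ hτρ hs hC (hzreg z hz j) (hreg w hw z hz (j + 2))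
    have h3 : ‖1 - Complex.I * (gd s (z j) (ends m w w (ext0 z) j) +
        gd s (z j) (ends m w w (ext0 z) (j + 2)))‖ ≤ 1 + 2 * K1 := by
      refine (norm_sub_le _ _).trans ?_
      rw [norm_one, norm_mul, Complex.norm_I, one_mul]
      have := norm_add_le (gd s (z j) (ends m w w (ext0 z) j))
        (gd s (z j) (ends m w w (ext0 z) (j + 2)))
      linarith
    calc _ ≤ 2 * π / M * (1 + 2 * K1) :=
          mul_le_mul (hna j j.2) h3 (norm_nonneg _) (by positivity)
      _ ≤ τ := by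
          rw [div_mul_eq_mul_div, div_le_iff₀ hMp]
          have h4 : 2 * π * (1 + 2 * K1) / τ ≤ M := le_max_left _ _
          rw [div_le_iff₀ hτ] at h4
          linarith
  have hcontr : ∀ w ∈ Rc (2 * ρ) (2 * τ), ∀ w' ∈ Rc (2 * ρ) (2 * τ), ∀ z z' : Fin m → ℂ,
      ‖z‖ ≤ τ → ‖z'‖ ≤ τ →
      ‖Pm s a w z - Pm s a w' z'‖ ≤ 1 / 2 * max ‖z - z'‖ ‖w - w'‖ := by
    intro w hw w' hw' z z' hz hz'
    set δ := max ‖z - z'‖ ‖w - w'‖ with hδ
    have hδ0 : 0 ≤ δ := (norm_nonneg _).trans (le_max_left _ _)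
    rw [pi_norm_le_iff_of_nonneg (by positivity)]
    intro j
    rw [Pi.sub_apply]
    unfold Pm
    rw [← mul_sub, norm_mul]
    have e : (1 - Complex.I * (gd s (z j) (ends m w w (ext0 z) j) +
        gd s (z j) (ends m w w (ext0 z) (j + 2)))) -
        (1 - Complex.I * (gd s (z' j) (ends m w' w' (ext0 z') j) +
        gd s (z' j) (ends m w' w' (ext0 z') (j + 2)))) =
        -(Complex.I * ((gd s (z j) (ends m w w (ext0 z) j) -
          gd s (z' j) (ends m w' w' (ext0 z') j)) +
          (gd s (z j) (ends m w w (ext0 z) (j + 2)) -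
          gd s (z' j) (ends m w' w' (ext0 z') (j + 2))))) := by ring
    have e' := congrArg norm e
    rw [norm_neg (Complex.I * _), norm_mul Complex.I, Complex.norm_I, one_mul] at e'
    rw [e']
    have hzj : ‖z j - z' j‖ ≤ δ := (norm_le_pi_norm (z - z') j).trans (le_max_left _ _)
    have hyj : ∀ i, ‖ends m w w (ext0 z) i - ends m w' w' (ext0 z') i‖ ≤ δ :=
      fun i => ends_dist (le_max_right _ _) (le_max_left _ _) i
    have h1 := gd_lip hτ hτρ hs hC (hzreg z hz j) (hreg w hw z hz j) (hzreg z' hz' j)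
      (hreg w' hw' z' hz' j)
    have h2 := gd_lip hτ hτρ hs hC (hzreg z hz j) (hreg w hw z hz (j + 2)) (hzreg z' hz' j)
      (hreg w' hw' z' hz' (j + 2))
    rw [← hK2] at h1 h2
    have h3 : K2 * (‖z j - z' j‖ + ‖ends m w w (ext0 z) j - ends m w' w' (ext0 z') j‖) ≤
        K2 * (δ + δ) := mul_le_mul_of_nonneg_left (add_le_add hzj (hyj _)) hK2p.le
    have h4 : K2 * (‖z j - z' j‖ +
        ‖ends m w w (ext0 z) (j + 2) - ends m w' w' (ext0 z') (j + 2)‖) ≤
        K2 * (δ + δ) := mul_le_mul_of_nonneg_left (add_le_add hzj (hyj _)) hK2p.le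
    have h5 := (norm_add_le (gd s (z j) (ends m w w (ext0 z) j) -
          gd s (z' j) (ends m w' w' (ext0 z') j)) (gd s (z j) (ends m w w (ext0 z) (j + 2)) -
          gd s (z' j) (ends m w' w' (ext0 z') (j + 2)))).trans
          (add_le_add (h1.trans h3) (h2.trans h4))
    calc _ ≤ 2 * π / M * (K2 * (δ + δ) + K2 * (δ + δ)) :=
          mul_le_mul (hna j j.2) h5 (norm_nonneg _) (by positivity)
      _ = (8 * π * K2) / M * δ := by ring
      _ ≤ 1 / 2 * δ := by
          apply mul_le_mul_of_nonneg_right _ hδ0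
          rw [div_le_iff₀ hMp]
          have h6 : 16 * π * K2 ≤ M := le_max_right _ _
          linarith
  -- fixed points
  have hfix : ∀ w : ℂ, ∃ z : Fin m → ℂ, w ∈ Rc (2 * ρ) (2 * τ) → ‖z‖ ≤ τ ∧ Pm s a w z = z := by
    intro w
    by_cases hw : w ∈ Rc (2 * ρ) (2 * τ)
    swap
    · exact ⟨0, fun h => absurd h hw⟩
    have hcomp : IsComplete (closedBall (0 : Fin m → ℂ) τ) := isClosed_closedBall.isComplete
    have hmt : Set.MapsTo (Pm s a w) (closedBall (0 : Fin m → ℂ) τ) (closedBall 0 τ) := by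
      intro z hz
      rw [mem_closedBall_zero_iff] at *
      exact hmaps w hw z hz
    have hcw : ContractingWith (1 / 2) (hmt.restrict (Pm s a w) _ _) := by
      refine ⟨by norm_num, ?_⟩
      refine LipschitzWith.of_dist_le_mul ?_
      intro z z'
      have hz : ‖(z : Fin m → ℂ)‖ ≤ τ := mem_closedBall_zero_iff.1 z.2
      have hz' : ‖(z' : Fin m → ℂ)‖ ≤ τ := mem_closedBall_zero_iff.1 z'.2
      have h1 := hcontr w hw w hw z z' hz hz'
      rw [sub_self, norm_zero, max_eq_left (norm_nonneg _)] at h1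
      rw [Subtype.dist_eq, Subtype.dist_eq, dist_eq_norm, dist_eq_norm]
      simpa using h1
    obtain ⟨z, hz, hfz, -⟩ := hcw.exists_fixedPoint' hcomp hmt
      (mem_closedBall_self hτ.le) (edist_ne_top _ _)
    exact ⟨z, fun _ => ⟨mem_closedBall_zero_iff.1 hz, hfz⟩⟩
  choose Z hZ using hfix
  -- critical points and fixed points
  have hcf : ∀ w ∈ Rc (2 * ρ) (2 * τ), ∀ z : Fin m → ℂ, ‖z‖ ≤ τ →
      (ChCrit s m a (ends m w w (ext0 z)) ↔ Pm s a w z = z) := by
    intro w hw z hz
    have key : ∀ j (hj : j < m),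
        (Complex.I * a j * ends m w w (ext0 z) (j + 1) / (2 * π) + Complex.I +
          deriv (fun v => s (ends m w w (ext0 z) j) v) (ends m w w (ext0 z) (j + 1)) +
          deriv (fun v => s v (ends m w w (ext0 z) (j + 2))) (ends m w w (ext0 z) (j + 1)) = 0 ↔
        Pm s a w z ⟨j, hj⟩ = z ⟨j, hj⟩) := by
      intro j hj
      rw [gd_symm hsym (R23 hτ hτρ (hreg w hw z hz j)) (R23 hτ hτρ (hreg w hw z hz (j + 1))),
        ends_succ w w (ext0 z) hj, ext0_of z hj]
      change _ + _ + gd s (z ⟨j, hj⟩) _ + gd s (z ⟨j, hj⟩) _ = 0 ↔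
        -(2 * (π : ℂ) / (a j : ℂ)) * (1 - Complex.I *
          (gd s (z ⟨j, hj⟩) (ends m w w (ext0 z) j) +
            gd s (z ⟨j, hj⟩) (ends m w w (ext0 z) (j + 2)))) = z ⟨j, hj⟩
      have h0 := ha0 j hj
      have hpi : (π : ℂ) ≠ 0 := by exact_mod_cast Real.pi_ne_zero
      set A := gd s (z ⟨j, hj⟩) (ends m w w (ext0 z) j)
      set B := gd s (z ⟨j, hj⟩) (ends m w w (ext0 z) (j + 2))
      set x := z ⟨j, hj⟩
      constructor
      · intro h
        have h1 : A + B = -(Complex.I * (a j : ℂ) * x / (2 * π) + Complex.I) := by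
          linear_combination h
        rw [h1]
        field_simp
        linear_combination (-(2 * (π : ℂ)) - x * (a j : ℂ)) * Complex.I_sq
      · intro h
        rw [← h]
        field_simp
        linear_combination (A + B) * Complex.I_sq
    constructor
    · intro h
      funext j
      exact (key j j.2).1 (h j j.2)
    · intro h j hj
      exact (key j hj).2 (congrFun h ⟨j, hj⟩)
  -- Lipschitz dependence
  have hlip : ∀ w ∈ Rc (2 * ρ) (2 * τ), ∀ w' ∈ Rc (2 * ρ) (2 * τ), ‖Z w - Z w'‖ ≤ ‖w - w'‖ := by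
    intro w hw w' hw'
    obtain ⟨h1, h2⟩ := hZ w hw
    obtain ⟨h1', h2'⟩ := hZ w' hw'
    have h3 := hcontr w hw w' hw' (Z w) (Z w') h1 h1'
    rw [h2, h2'] at h3
    rcases le_total ‖Z w - Z w'‖ ‖w - w'‖ with h | h
    · exact h
    · rw [max_eq_left h] at h3
      have h4 := norm_nonneg (Z w - Z w')
      linarith [norm_nonneg (w - w')]
  refine ⟨fun w => ext0 (Z w), ?_⟩
  intro w hw
  obtain ⟨hz1, hz2⟩ := hZ w hw
  have hcrit := (hcf w hw (Z w) hz1).2 hz2
  refine ⟨?_, hcrit, ?_, ?_⟩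
  · intro j hj
    show ‖ext0 (Z w) j‖ ≤ τ
    rw [ext0_of _ hj]
    exact (norm_le_pi_norm (Z w) ⟨j, hj⟩).trans hz1
  · intro z hz hcr j hj
    rw [← ends_ext] at hcr
    have hzn : ‖(fun j : Fin m => z j)‖ ≤ τ := by
      rw [pi_norm_le_iff_of_nonneg hτ.le]
      exact fun j => hz j j.2
    have h1 := (hcf w hw _ hzn).1 hcr
    have h2 := hcontr w hw w hw _ (Z w) hzn hz1
    rw [h1, hz2, sub_self, norm_zero, max_eq_left (norm_nonneg _)] at h2
    have h3 : ‖(fun j : Fin m => z j) - Z w‖ ≤ 0 := by linarith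
    have h4 := sub_eq_zero.1 (norm_le_zero_iff.1 h3)
    show z j = ext0 (Z w) j
    rw [ext0_of _ hj, ← h4]
  · -- the derivative
    set Y : ℂ → ℕ → ℂ := fun w' => ends m w' w' (ext0 (Z w')) with hY
    have hYreg : ∀ j, Y w j ∈ Rc (3 * ρ) (3 * τ) := fun j => R23 hτ hτρ (hreg w hw (Z w) hz1 j)
    have hYO : ∀ j, (fun w' => Y w' j - Y w j) =O[𝓝 w] (fun w' => w' - w) := by
      intro j
      refine IsBigO.of_bound 1 ?_
      filter_upwards [(Pool.Agent.Y481.Rc_open _ _).mem_nhds hw] with w' hw'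
      rw [one_mul]
      exact ends_dist le_rfl (hlip w' hw' w hw) j
    rw [hasDerivAt_iff_isLittleO]
    -- the terms
    have t1 : ∀ j, (fun w' => (Complex.I * a j * Y w' (j + 1) ^ 2 / (4 * π) +
        Complex.I * Y w' (j + 1)) - (Complex.I * a j * Y w (j + 1) ^ 2 / (4 * π) +
        Complex.I * Y w (j + 1)) - (Complex.I * a j * Y w (j + 1) / (2 * π) + Complex.I) *
        (Y w' (j + 1) - Y w (j + 1))) =o[𝓝 w] (fun w' => w' - w) := by
      intro j
      have h1 : (fun w' => (Y w' (j + 1) - Y w (j + 1)) * (Y w' (j + 1) - Y w (j + 1))) =o[𝓝 w]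
          (fun w' => w' - w) := by
        have h2 : (fun w' : ℂ => (w' - w) * (w' - w)) =o[𝓝 w] (fun w' => w' - w) := by
          have h3 : (fun w' : ℂ => w' - w) =o[𝓝 w] (fun _ => (1 : ℂ)) := by
            rw [isLittleO_one_iff]
            have : Tendsto (fun w' : ℂ => w' - w) (𝓝 w) (𝓝 (w - w)) :=
              (continuous_id.sub continuous_const).tendsto w
            rwa [sub_self] at this
          have := h3.mul_isBigO (isBigO_refl (fun w' : ℂ => w' - w) (𝓝 w))
          simpa using this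
        exact ((hYO (j + 1)).mul (hYO (j + 1))).trans_isLittleO h2
      refine (h1.const_mul_left (Complex.I * a j / (4 * π))).congr_left fun w' => ?_
      ring
    have t2 : ∀ j, (fun w' => s (Y w' j) (Y w' (j + 1)) - s (Y w j) (Y w (j + 1)) -
        (deriv (fun x => s x (Y w (j + 1))) (Y w j) * (Y w' j - Y w j) +
        deriv (fun x => s (Y w j) x) (Y w (j + 1)) * (Y w' (j + 1) - Y w (j + 1)))) =o[𝓝 w]
        (fun w' => w' - w) := fun j =>
      expand hs (α := fun w' => Y w' j) (β := fun w' => Y w' (j + 1)) (hYreg j) (hYreg (j + 1))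
        (hYO j) (hYO (j + 1))
    have t3 := (IsLittleO.sum (s := range m) fun j _ => t1 j).add
      (IsLittleO.sum (s := range (m + 1)) fun j _ => t2 j)
    refine t3.congr_left fun w' => ?_
    show _ = ChVal s m a (Y w') - ChVal s m a (Y w) - (w' - w) •
      (deriv (fun v => s v (ext0 (Z w) 0)) w + deriv (fun v => s (ext0 (Z w) (m - 1)) v) w)
    have hY0 : ∀ w', Y w' 0 = w' := fun w' => ends_zero _ _ _
    have hYl : ∀ w', Y w' (m + 1) = w' := fun w' => ends_last _ _ _
    have hY1 : Y w 1 = ext0 (Z w) 0 := ends_succ w w _ (by omega)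
    have hYm : Y w m = ext0 (Z w) (m - 1) := by
      obtain ⟨k, rfl⟩ : ∃ k, m = k + 1 := ⟨m - 1, by omega⟩
      rw [Nat.add_sub_cancel]
      exact ends_succ w w _ (by omega)
    rw [← hY1, ← hYm]
    unfold ChVal
    simp only [Finset.sum_apply, Finset.sum_sub_distrib, Finset.sum_add_distrib]
    have e1 : ∑ j ∈ range (m + 1), deriv (fun x => s x (Y w (j + 1))) (Y w j) *
        (Y w' j - Y w j) = ∑ j ∈ range m, deriv (fun x => s x (Y w (j + 1 + 1))) (Y w (j + 1)) *
        (Y w' (j + 1) - Y w (j + 1)) + deriv (fun x => s x (Y w 1)) w * (w' - w) := by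
      rw [Finset.sum_range_succ']
      simp only [hY0]
    have e2 : ∑ j ∈ range (m + 1), deriv (fun x => s (Y w j) x) (Y w (j + 1)) *
        (Y w' (j + 1) - Y w (j + 1)) = ∑ j ∈ range m,
        deriv (fun x => s (Y w j) x) (Y w (j + 1)) * (Y w' (j + 1) - Y w (j + 1)) +
        deriv (fun x => s (Y w m) x) w * (w' - w) := by
      rw [Finset.sum_range_succ]
      simp only [hYl]
    rw [e1, e2]
    have e3 : ∑ j ∈ range m, (Complex.I * a j * Y w (j + 1) / (2 * π) + Complex.I) *
        (Y w' (j + 1) - Y w (j + 1)) +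
        (∑ j ∈ range m, deriv (fun x => s x (Y w (j + 1 + 1))) (Y w (j + 1)) *
        (Y w' (j + 1) - Y w (j + 1)) + ∑ j ∈ range m,
        deriv (fun x => s (Y w j) x) (Y w (j + 1)) * (Y w' (j + 1) - Y w (j + 1))) = 0 := by
      rw [← Finset.sum_add_distrib, ← Finset.sum_add_distrib]
      apply Finset.sum_eq_zero
      intro j hj
      have h1 := hcrit j (Finset.mem_range.1 hj)
      have h2 : Complex.I * a j * Y w (j + 1) / (2 * π) + Complex.I +
          deriv (fun v => s (Y w j) v) (Y w (j + 1)) +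
          deriv (fun v => s v (Y w (j + 2))) (Y w (j + 1)) = 0 := h1
      linear_combination (Y w' (j + 1) - Y w (j + 1)) * h2
    rw [smul_eq_mul]
    linear_combination -e3

end Pool.Agent.Y108.X
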